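import Mathlib
import Pool.Agent.Lib_helper80.HK.DefsP

set_option autoImplicit false

namespace HK

open Relation

theorem di_self (x : ℤ × ℤ) : di x x = 0 := by
  unfold di
  simp

theorem di_comm (x y : ℤ × ℤ) : di x y = di y x := by
  unfold di
  omega

theorem di_tri (x y z : ℤ × ℤ) : di x z ≤ di x y + di y z := by
  unfold di
  omega

theorem ea_nn_iff (x y : ℤ × ℤ) :
    nn x y ↔ (x.1 - y.1).natAbs + (x.2 - y.2).natAbs = 1 := by
  unfold nn
  rw [Int.abs_eq_natAbs, Int.abs_eq_natAbs]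
  omega

theorem di_nn {x y : ℤ × ℤ} (h : nn x y) : di x y = 1 := by
  rw [ea_nn_iff] at h
  unfold di
  omega

theorem nn_symm {x y : ℤ × ℤ} (h : nn x y) : nn y x := by
  rw [ea_nn_iff] at h ⊢
  omega

theorem ea_gen {α : Type} {Q : Set α} {r s : α → α → Prop}
    (hrs : ∀ a b, r a b → s a b ∧ b ∈ Q) {x y : α} (hx : x ∈ Q) (h : ReflTransGen r x y) :
    ∃ (N : ℕ) (γ : ℕ → α), (∀ j < N, s (γ j) (γ (j + 1))) ∧ Set.InjOn γ (Set.Iic N) ∧
      γ 0 = x ∧ γ N = y ∧ ∀ j ≤ N, γ j ∈ Q := by
  classical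
  induction h with
  | refl =>
    refine ⟨0, fun _ => x, fun j hj => absurd hj (Nat.not_lt_zero j), ?_, rfl, rfl,
      fun _ _ => hx⟩
    intro a ha b hb _
    have h1 : a ≤ 0 := ha
    have h2 : b ≤ 0 := hb
    omega
  | @tail b c _ hbc ih =>
    obtain ⟨N, γ, h1, h2, h3, h4, h5⟩ := ih
    obtain ⟨hs, hcQ⟩ := hrs _ _ hbc
    by_cases hc : ∃ i, i ≤ N ∧ γ i = c
    · obtain ⟨i, hi, hic⟩ := hc
      exact ⟨i, γ, fun j hj => h1 j (by omega), h2.mono (Set.Iic_subset_Iic.2 hi), h3, hic,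
        fun j hj => h5 j (by omega)⟩
    · have hc' : ∀ i, i ≤ N → γ i ≠ c := fun i hi he => hc ⟨i, hi, he⟩
      refine ⟨N + 1, fun j => if j ≤ N then γ j else c, ?_, ?_, ?_, ?_, ?_⟩
      · intro j hj
        by_cases hj2 : j + 1 ≤ N
        · have hj3 : j ≤ N := by omega
          simp only [hj2, hj3, if_true]
          exact h1 j (by omega)
        · have hj3 : j = N := by omega
          subst hj3
          simp only [le_refl, if_true, hj2, if_false]
          rw [h4]
          exact hs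
      · intro a ha b' hb' hab
        have ha' : a ≤ N + 1 := ha
        have hb'' : b' ≤ N + 1 := hb'
        by_cases ha2 : a ≤ N <;> by_cases hb2 : b' ≤ N
        · simp only [ha2, hb2, if_true] at hab
          exact h2 ha2 hb2 hab
        · simp only [ha2, hb2, if_true, if_false] at hab
          exact absurd hab (hc' a ha2)
        · simp only [ha2, hb2, if_true, if_false] at hab
          exact absurd hab.symm (hc' b' hb2)
        · omega
      · simp only [Nat.zero_le, if_true]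
        exact h3
      · have : ¬ (N + 1 ≤ N) := by omega
        simp only [this, if_false]
      · intro j hj
        by_cases hj2 : j ≤ N
        · simp only [hj2, if_true]
          exact h5 j hj2
        · simp only [hj2, if_false]
          exact hcQ

/-- a nearest neighbour chain contains a self-avoiding path -/
theorem npath_of {Q : Set (ℤ × ℤ)} {x y : ℤ × ℤ} (hx : x ∈ Q) (h : ReflTransGen (sn Q) x y) :
    ∃ (N : ℕ) (γ : ℕ → ℤ × ℤ), NPath N γ ∧ γ 0 = x ∧ γ N = y ∧ ∀ j ≤ N, γ j ∈ Q := by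
  obtain ⟨N, γ, h1, h2, h3, h4, h5⟩ := ea_gen (s := nn) (fun a b hab => ⟨hab.1, hab.2.2⟩) hx h
  exact ⟨N, γ, ⟨h1, h2⟩, h3, h4, h5⟩

/-- a `*`-chain contains a self-avoiding `*`-path -/
theorem spath_of {Q : Set (ℤ × ℤ)} {x y : ℤ × ℤ} (hx : x ∈ Q) (h : ReflTransGen (st Q) x y) :
    ∃ (N : ℕ) (γ : ℕ → ℤ × ℤ), SPath N γ ∧ γ 0 = x ∧ γ N = y ∧ ∀ j ≤ N, γ j ∈ Q := by
  obtain ⟨N, γ, h1, h2, h3, h4, h5⟩ := ea_gen (s := fun a b => di a b ≤ 1)
    (fun a b hab => ⟨hab.1, hab.2.2⟩) hx h
  exact ⟨N, γ, ⟨h1, h2⟩, h3, h4, h5⟩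

theorem spath_len {N : ℕ} {γ : ℕ → ℤ × ℤ} (h : SPath N γ) : di (γ 0) (γ N) ≤ N := by
  have key : ∀ M, M ≤ N → di (γ 0) (γ M) ≤ M := by
    intro M
    induction M with
    | zero =>
      intro _
      rw [di_self]
    | succ M ih =>
      intro hM
      have h1 := ih (by omega)
      have h2 := h.st M (by omega)
      have h3 := di_tri (γ 0) (γ M) (γ (M + 1))
      omega
  exact key N le_rfl

theorem spath_take {N s : ℕ} {γ : ℕ → ℤ × ℤ} (h : SPath N γ) (hs : s ≤ N) : SPath s γ :=
  ⟨fun j hj => h.st j (by omega), h.inj.mono (Set.Iic_subset_Iic.2 hs)⟩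

/-- balls are connected -/
theorem ball_conn {z k : ℤ × ℤ} {r : ℕ} (hk : di z k ≤ r) :
    ReflTransGen (sn {x | di z x ≤ r}) z k := by
  have key : ∀ (n : ℕ) (k : ℤ × ℤ), (k.1 - z.1).natAbs + (k.2 - z.2).natAbs = n →
      di z k ≤ r → ReflTransGen (sn {x | di z x ≤ r}) z k := by
    intro n
    induction n with
    | zero =>
      intro k hn _
      have : k = z := Prod.ext (by omega) (by omega)
      rw [this]
    | succ n ih =>
      intro k hn hk
      have step : ∀ k' : ℤ × ℤ, (k'.1 - z.1).natAbs + (k'.2 - z.2).natAbs = n →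
          di z k' ≤ r → nn k' k → ReflTransGen (sn {x | di z x ≤ r}) z k := fun k' e1 e2 e3 =>
        (ih k' e1 e2).tail ⟨e3, e2, hk⟩
      have c4 : z.1 < k.1 ∨ k.1 < z.1 ∨ z.2 < k.2 ∨ k.2 < z.2 := by omega
      unfold di at hk
      rcases c4 with c | c | c | c
      · refine step (k.1 - 1, k.2) ?_ ?_ ?_
        · simp only; omega
        · unfold di; simp only; omega
        · rw [ea_nn_iff]; simp only; omega
      · refine step (k.1 + 1, k.2) ?_ ?_ ?_
        · simp only; omega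
        · unfold di; simp only; omega
        · rw [ea_nn_iff]; simp only; omega
      · refine step (k.1, k.2 - 1) ?_ ?_ ?_
        · simp only; omega
        · unfold di; simp only; omega
        · rw [ea_nn_iff]; simp only; omega
      · refine step (k.1, k.2 + 1) ?_ ?_ ?_
        · simp only; omega
        · unfold di; simp only; omega
        · rw [ea_nn_iff]; simp only; omega
  exact key _ k rfl hk

theorem ea_symm (Q : Set (ℤ × ℤ)) {x y : ℤ × ℤ} (h : ReflTransGen (sn Q) x y) :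
    ReflTransGen (sn Q) y x := by
  induction h with
  | refl => exact ReflTransGen.refl
  | tail _ hbc ih =>
    exact (ReflTransGen.single ⟨nn_symm hbc.1, hbc.2.2, hbc.2.1⟩).trans ih

theorem ea_up {Q : Set (ℤ × ℤ)} {a b : ℤ} (n : ℕ)
    (h : ∀ t, b ≤ t → t ≤ b + n → (a, t) ∈ Q) : ReflTransGen (sn Q) (a, b) (a, b + n) := by
  induction n with
  | zero =>
    rw [Nat.cast_zero, add_zero]
  | succ n ih =>
    refine (ih fun t h1 h2 => h t h1 (by push_cast; omega)).tail ⟨?_, ?_, ?_⟩
    · rw [ea_nn_iff]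
      push_cast
      omega
    · exact h _ (by omega) (by push_cast; omega)
    · exact h _ (by push_cast; omega) le_rfl

theorem ea_right {Q : Set (ℤ × ℤ)} {a b : ℤ} (n : ℕ)
    (h : ∀ t, a ≤ t → t ≤ a + n → (t, b) ∈ Q) : ReflTransGen (sn Q) (a, b) (a + n, b) := by
  induction n with
  | zero =>
    rw [Nat.cast_zero, add_zero]
  | succ n ih =>
    refine (ih fun t h1 h2 => h t h1 (by push_cast; omega)).tail ⟨?_, ?_, ?_⟩
    · rw [ea_nn_iff]
      push_cast
      omega
    · exact h _ (by omega) (by push_cast; omega)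
    · exact h _ (by push_cast; omega) le_rfl

theorem ea_vert {Q : Set (ℤ × ℤ)} {a : ℤ} (b b' : ℤ) (h : ∀ t, (a, t) ∈ Q) :
    ReflTransGen (sn Q) (a, b) (a, b') := by
  rcases le_total b b' with hb | hb
  · have h1 := ea_up (Q := Q) (a := a) (b := b) (b' - b).toNat (fun t _ _ => h t)
    have e : b + ((b' - b).toNat : ℤ) = b' := by omega
    rwa [e] at h1
  · have h1 := ea_up (Q := Q) (a := a) (b := b') (b - b').toNat (fun t _ _ => h t)
    have e : b' + ((b - b').toNat : ℤ) = b := by omega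
    rw [e] at h1
    exact ea_symm Q h1

theorem ea_hor {Q : Set (ℤ × ℤ)} {b : ℤ} (a a' : ℤ) (h : ∀ t, (t, b) ∈ Q) :
    ReflTransGen (sn Q) (a, b) (a', b) := by
  rcases le_total a a' with hb | hb
  · have h1 := ea_right (Q := Q) (a := a) (b := b) (a' - a).toNat (fun t _ _ => h t)
    have e : a + ((a' - a).toNat : ℤ) = a' := by omega
    rwa [e] at h1
  · have h1 := ea_right (Q := Q) (a := a') (b := b) (a - a').toNat (fun t _ _ => h t)
    have e : a' + ((a - a').toNat : ℤ) = a := by omega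
    rw [e] at h1
    exact ea_symm Q h1

theorem ea_out {z x : ℤ × ℤ} {ρ : ℕ} (hx : ρ ≤ di z x) :
    ReflTransGen (sn {w | ρ ≤ di z w}) x (z.1 + ρ, z.2 + ρ) := by
  obtain ⟨a, b⟩ := x
  have c2 : ρ ≤ (z.1 - a).natAbs ∨ ρ ≤ (z.2 - b).natAbs := by
    unfold di at hx
    simp only at hx
    omega
  rcases c2 with c | c
  · refine (ea_vert (a := a) b (z.2 + ρ) ?_).trans (ea_hor (b := z.2 + ρ) a (z.1 + ρ) ?_)
    · intro t
      show ρ ≤ di z (a, t)
      unfold di
      simp only
      omega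
    · intro t
      show ρ ≤ di z (t, z.2 + ρ)
      unfold di
      simp only
      omega
  · refine (ea_hor (b := b) a (z.1 + ρ) ?_).trans (ea_vert (a := z.1 + ρ) b (z.2 + ρ) ?_)
    · intro t
      show ρ ≤ di z (t, b)
      unfold di
      simp only
      omega
    · intro t
      show ρ ≤ di z (z.1 + ρ, t)
      unfold di
      simp only
      omega

/-- complements of balls are connected -/
theorem out_conn {z x y : ℤ × ℤ} {ρ : ℕ} (hx : ρ ≤ di z x) (hy : ρ ≤ di z y) :
    ReflTransGen (sn {w | ρ ≤ di z w}) x y :=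
  (ea_out hx).trans (ea_symm _ (ea_out hy))

end HK
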