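import Mathlib
import Pool.Agent.Lib_helper80.HK.DefsP

set_option autoImplicit false

namespace HK

theorem eb_one (f : ℤ → ZMod 2) : ∃ F : ℤ → ZMod 2, F 0 = 0 ∧ ∀ i, F (i + 1) = F i + f i := by
  refine ⟨fun i => (∑ k ∈ Finset.Ico (0 : ℤ) i, f k) - ∑ k ∈ Finset.Ico i (0 : ℤ), f k, by simp, ?_⟩
  intro i
  rcases lt_or_ge i 0 with h | h
  · have h1 : Finset.Ico (0 : ℤ) (i + 1) = ∅ := Finset.Ico_eq_empty (by omega)
    have h2 : Finset.Ico (0 : ℤ) i = ∅ := Finset.Ico_eq_empty (by omega)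
    have h3 : Finset.Ico i (0 : ℤ) = insert i (Finset.Ico (i + 1) (0 : ℤ)) := by
      ext k
      simp only [Finset.mem_Ico, Finset.mem_insert]
      omega
    have h4 : i ∉ Finset.Ico (i + 1) (0 : ℤ) := by
      simp
    simp only [h1, h2, h3, Finset.sum_insert h4, Finset.sum_empty]
    ring
  · have h1 : Finset.Ico (i + 1) (0 : ℤ) = ∅ := Finset.Ico_eq_empty (by omega)
    have h2 : Finset.Ico i (0 : ℤ) = ∅ := Finset.Ico_eq_empty (by omega)
    have h3 : Finset.Ico (0 : ℤ) (i + 1) = insert i (Finset.Ico (0 : ℤ) i) := by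
      ext k
      simp only [Finset.mem_Ico, Finset.mem_insert]
      omega
    have h4 : i ∉ Finset.Ico (0 : ℤ) i := by
      simp
    simp only [h1, h2, h3, Finset.sum_insert h4, Finset.sum_empty]
    ring

/-- a closed function on the edges has a potential -/
theorem potential (a b : ℤ → ℤ → ZMod 2)
    (h : ∀ i j, a i j + b (i + 1) j + a i (j + 1) + b i j = 0) :
    ∃ V : ℤ → ℤ → ZMod 2, (∀ i j, V (i + 1) j = V i j + a i j) ∧
      ∀ i j, V i (j + 1) = V i j + b i j := by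
  obtain ⟨A, _, hA⟩ := eb_one (fun i => a i 0)
  choose B hB0 hB using fun i => eb_one (fun j => b i j)
  have key : ∀ i j, A (i + 1) + B (i + 1) j = A i + B i j + a i j := by
    intro i j
    induction j using Int.induction_on with
    | zero => rw [hB0, hB0, hA]; ring
    | succ k ih =>
      rw [hB, hB]
      have h1 := h i k
      have h2 : (2 : ZMod 2) = 0 := rfl
      linear_combination ih + h1 - (a i (k + 1) + b i k) * h2
    | pred k ih =>
      have e1 : B (i + 1) (-(k : ℤ)) = B (i + 1) (-(k : ℤ) - 1) + b (i + 1) (-(k : ℤ) - 1) := by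
        have := hB (i + 1) (-(k : ℤ) - 1)
        rwa [sub_add_cancel] at this
      have e2 : B i (-(k : ℤ)) = B i (-(k : ℤ) - 1) + b i (-(k : ℤ) - 1) := by
        have := hB i (-(k : ℤ) - 1)
        rwa [sub_add_cancel] at this
      have h1 := h i (-(k : ℤ) - 1)
      rw [sub_add_cancel] at h1
      have h2 : (2 : ZMod 2) = 0 := rfl
      rw [e1, e2] at ih
      linear_combination ih - h1 + (a i (-(k : ℤ)) + b i (-(k : ℤ) - 1)) * h2
  refine ⟨fun i j => A i + B i j, fun i j => key i j, ?_⟩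
  intro i j
  show A i + B i (j + 1) = A i + B i j + b i j
  rw [hB]
  ring

/-- the same for symmetric functions on the nearest neighbour edges -/
theorem potential' (g : ℤ × ℤ → ℤ × ℤ → ZMod 2) (hg : ∀ x y, g x y = g y x)
    (h : ∀ i j : ℤ, g (i, j) (i + 1, j) + g (i + 1, j) (i + 1, j + 1) +
      g (i, j + 1) (i + 1, j + 1) + g (i, j) (i, j + 1) = 0) :
    ∃ V : ℤ × ℤ → ZMod 2, ∀ x y, nn x y → V y = V x + g x y := by
  obtain ⟨V, hV1, hV2⟩ := potential (fun i j => g (i, j) (i + 1, j)) (fun i j => g (i, j) (i, j + 1)) h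
  have h2 : (2 : ZMod 2) = 0 := rfl
  refine ⟨fun x => V x.1 x.2, ?_⟩
  rintro ⟨x1, x2⟩ ⟨y1, y2⟩ hxy
  have hxy' : |x1 - y1| + |x2 - y2| = 1 := hxy
  show V y1 y2 = V x1 x2 + g (x1, x2) (y1, y2)
  have hc : (y1 = x1 + 1 ∧ y2 = x2) ∨ (x1 = y1 + 1 ∧ y2 = x2) ∨ (y1 = x1 ∧ y2 = x2 + 1) ∨
      (y1 = x1 ∧ x2 = y2 + 1) := by
    rcases abs_cases (x1 - y1) with ⟨h3, h4⟩ | ⟨h3, h4⟩ <;>
    rcases abs_cases (x2 - y2) with ⟨h5, h6⟩ | ⟨h5, h6⟩ <;>
    omega
  rcases hc with ⟨e1, e2⟩ | ⟨e1, e2⟩ | ⟨e1, e2⟩ | ⟨e1, e2⟩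
  · subst e1 e2
    exact hV1 _ _
  · subst e1 e2
    have := hV1 y1 y2
    rw [this, hg (y1 + 1, y2) (y1, y2)]
    linear_combination - g (y1, y2) (y1 + 1, y2) * h2
  · subst e1 e2
    exact hV2 _ _
  · subst e1 e2
    have := hV2 y1 y2
    rw [this, hg (y1, y2 + 1) (y1, y2)]
    linear_combination - g (y1, y2) (y1, y2 + 1) * h2

end HK
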