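import Mathlib
import Pool.Agent.Lib_helper80.HK.DefsP
import Pool.Agent.Lib_helper80.HK.W.eb

set_option autoImplicit false

namespace HK

open Relation

theorem ec_nn_iff (x y : ℤ × ℤ) : nn x y ↔ (x.1 - y.1).natAbs + (x.2 - y.2).natAbs = 1 := by
  unfold nn
  rw [Int.abs_eq_natAbs, Int.abs_eq_natAbs]
  exact_mod_cast Iff.rfl

theorem ec_di_iff (x y : ℤ × ℤ) : di x y ≤ 1 ↔ (x.1 - y.1).natAbs ≤ 1 ∧ (x.2 - y.2).natAbs ≤ 1 := by
  unfold di
  exact max_le_iff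

theorem ec_nn_symm {x y : ℤ × ℤ} (h : nn x y) : nn y x := by
  rw [ec_nn_iff] at h ⊢
  omega

theorem ec_di_symm {x y : ℤ × ℤ} (h : di x y ≤ 1) : di y x ≤ 1 := by
  rw [ec_di_iff] at h ⊢
  omega

theorem ec_nn_di {x y : ℤ × ℤ} (h : nn x y) : di x y ≤ 1 := by
  rw [ec_nn_iff] at h
  rw [ec_di_iff]
  omega

theorem ec_cases {x y : ℤ × ℤ} (h : di x y ≤ 1) :
    x = y ∨ nn x y ∨ ∃ p, nn x p ∧ nn p y := by
  rw [ec_di_iff] at h
  by_cases h1 : x.1 = y.1
  · by_cases h2 : x.2 = y.2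
    · exact Or.inl (Prod.ext h1 h2)
    · right; left
      rw [ec_nn_iff]
      omega
  · by_cases h2 : x.2 = y.2
    · right; left
      rw [ec_nn_iff]
      omega
    · right; right
      refine ⟨(x.1, y.2), ?_, ?_⟩
      · rw [ec_nn_iff]
        show (x.1 - x.1).natAbs + (x.2 - y.2).natAbs = 1
        omega
      · rw [ec_nn_iff]
        show (x.1 - y.1).natAbs + (y.2 - y.2).natAbs = 1
        omega

theorem ec_two (a : ZMod 2) : a + a = 0 := CharTwo.add_self_eq_zero a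

/-- the outer boundary is connected -/
theorem outer_conn {O C : Set (ℤ × ℤ)} (h : Sep O C) {x y : ℤ × ℤ} (hx : x ∈ C)
    (hx' : ∃ o ∈ O, di o x ≤ 1) (hy : y ∈ C) (hy' : ∃ o ∈ O, di o y ≤ 1) :
    ReflTransGen (sn {w | w ∈ C ∧ ∃ o ∈ O, di o w ≤ 1}) x y := by
  classical
  by_contra hcon
  set Y : Set (ℤ × ℤ) := {w | w ∈ C ∧ ∃ o ∈ O, di o w ≤ 1} with hY
  set Y1 : Set (ℤ × ℤ) := {w | w ∈ Y ∧ ReflTransGen (sn Y) x w} with hY1
  have hxY : x ∈ Y := ⟨hx, hx'⟩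
  have hyY : y ∈ Y := ⟨hy, hy'⟩
  have hx1 : x ∈ Y1 := ⟨hxY, ReflTransGen.refl⟩
  have hy1 : y ∉ Y1 := fun hh => hcon hh.2
  have hYO : ∀ w ∈ Y, w ∉ O := fun w hw ho => h.disj w ho hw.1
  have hY1Y : ∀ w ∈ Y1, w ∈ Y := fun w hw => hw.1
  have hadj : ∀ p ∈ Y1, ∀ q ∈ Y, nn p q → q ∈ Y1 := fun p hp q hq hpq =>
    ⟨hq, hp.2.tail ⟨hpq, hp.1, hq⟩⟩
  set g : ℤ × ℤ → ℤ × ℤ → ZMod 2 := fun p q =>
    if (p ∈ O ∧ q ∈ Y1) ∨ (p ∈ Y1 ∧ q ∈ O) then 1 else 0 with hg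
  have hgs : ∀ p q, g p q = g q p := by
    intro p q
    simp only [hg]
    congr 1
    apply propext
    tauto
  have g0 : ∀ p q, p ∉ O → q ∉ O → g p q = 0 := by
    intro p q hp hq
    simp only [hg]
    rw [if_neg]
    rintro (hh | hh)
    · exact hp hh.1
    · exact hq hh.2
  have gO : ∀ p q, p ∈ O → g p q = if q ∈ Y1 then 1 else 0 := by
    intro p q hp
    simp only [hg]
    have hp1 : p ∉ Y1 := fun hh => hYO p hh.1 hp
    by_cases hq : q ∈ Y1
    · rw [if_pos (Or.inl ⟨hp, hq⟩), if_pos hq]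
    · rw [if_neg, if_neg hq]
      rintro (hh | hh)
      · exact hq hh.2
      · exact hp1 hh.1
  -- in a square with a point of `O`
  have hβ : ∀ o ∈ O, ∀ p q, di o p ≤ 1 → di o q ≤ 1 → nn p q →
      g p q = (if p ∈ Y1 then 1 else 0) + (if q ∈ Y1 then 1 else 0) := by
    intro o ho p q hp hq hpq
    by_cases hpO : p ∈ O
    · have hp1 : p ∉ Y1 := fun hh => hYO p hh.1 hpO
      rw [gO p q hpO, if_neg hp1, zero_add]
    · by_cases hqO : q ∈ O
      · have hq1 : q ∉ Y1 := fun hh => hYO q hh.1 hqO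
        rw [hgs p q, gO q p hqO, if_neg hq1, add_zero]
      · have hpY : p ∈ Y := ⟨h.bd o ho p hp hpO, o, ho, hp⟩
        have hqY : q ∈ Y := ⟨h.bd o ho q hq hqO, o, ho, hq⟩
        rw [g0 p q hpO hqO]
        by_cases hp1 : p ∈ Y1
        · have hq1 : q ∈ Y1 := hadj p hp1 q hqY hpq
          rw [if_pos hp1, if_pos hq1, ec_two]
        · have hq1 : q ∉ Y1 := fun hh => hp1 (hadj q hh p hpY (ec_nn_symm hpq))
          rw [if_neg hp1, if_neg hq1, add_zero]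
  obtain ⟨V, hV⟩ := potential' g hgs (by
    intro i j
    have n1 : nn (i, j) (i + 1, j) := by
      rw [ec_nn_iff]
      show (i - (i + 1)).natAbs + (j - j).natAbs = 1
      omega
    have n2 : nn (i + 1, j) (i + 1, j + 1) := by
      rw [ec_nn_iff]
      show (i + 1 - (i + 1)).natAbs + (j - (j + 1)).natAbs = 1
      omega
    have n3 : nn (i, j + 1) (i + 1, j + 1) := by
      rw [ec_nn_iff]
      show (i - (i + 1)).natAbs + (j + 1 - (j + 1)).natAbs = 1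
      omega
    have n4 : nn (i, j) (i, j + 1) := by
      rw [ec_nn_iff]
      show (i - i).natAbs + (j - (j + 1)).natAbs = 1
      omega
    by_cases hO : ∃ o ∈ O, di o (i, j) ≤ 1 ∧ di o (i + 1, j) ≤ 1 ∧ di o (i + 1, j + 1) ≤ 1 ∧
        di o (i, j + 1) ≤ 1
    · obtain ⟨o, ho, d1, d2, d3, d4⟩ := hO
      rw [hβ o ho _ _ d1 d2 n1, hβ o ho _ _ d2 d3 n2, hβ o ho _ _ d4 d3 n3, hβ o ho _ _ d1 d4 n4]
      generalize (if ((i, j) : ℤ × ℤ) ∈ Y1 then (1 : ZMod 2) else 0) = a1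
      generalize (if ((i + 1, j) : ℤ × ℤ) ∈ Y1 then (1 : ZMod 2) else 0) = a2
      generalize (if ((i + 1, j + 1) : ℤ × ℤ) ∈ Y1 then (1 : ZMod 2) else 0) = a3
      generalize (if ((i, j + 1) : ℤ × ℤ) ∈ Y1 then (1 : ZMod 2) else 0) = a4
      have e : a1 + a2 + (a2 + a3) + (a4 + a3) + (a1 + a4) =
          (a1 + a1) + (a2 + a2) + (a3 + a3) + (a4 + a4) := by ring
      rw [e]
      simp only [ec_two, add_zero]
    · have hno : ∀ o ∈ O, ¬ (di o (i, j) ≤ 1 ∧ di o (i + 1, j) ≤ 1 ∧ di o (i + 1, j + 1) ≤ 1 ∧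
          di o (i, j + 1) ≤ 1) := fun o ho hh => hO ⟨o, ho, hh⟩
      have m1 : ((i, j) : ℤ × ℤ) ∉ O := by
        intro ho
        apply hno _ ho
        simp only [ec_di_iff]
        omega
      have m2 : ((i + 1, j) : ℤ × ℤ) ∉ O := by
        intro ho
        apply hno _ ho
        simp only [ec_di_iff]
        omega
      have m3 : ((i + 1, j + 1) : ℤ × ℤ) ∉ O := by
        intro ho
        apply hno _ ho
        simp only [ec_di_iff]
        omega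
      have m4 : ((i, j + 1) : ℤ × ℤ) ∉ O := by
        intro ho
        apply hno _ ho
        simp only [ec_di_iff]
        omega
      rw [g0 _ _ m1 m2, g0 _ _ m2 m3, g0 _ _ m4 m3, g0 _ _ m1 m4]
      rfl)
  -- (1)
  have V1 : ∀ p q, ReflTransGen (sn C) p q → V p = V q := by
    intro p q hpq
    induction hpq with
    | refl => rfl
    | tail _ hst ih =>
      rw [ih, hV _ _ hst.1, g0 _ _ (fun ho => h.disj _ ho hst.2.1)
        (fun ho => h.disj _ ho hst.2.2), add_zero]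
  -- (2)
  have V2 : ∀ p q, ReflTransGen (st O) p q → V p = V q := by
    intro p q hpq
    induction hpq with
    | refl => rfl
    | @tail b c _ hst ih =>
      rw [ih]
      obtain ⟨hd, hb, hc⟩ := hst
      have hb1 : b ∉ Y1 := fun hh => hYO b hh.1 hb
      have hc1 : c ∉ Y1 := fun hh => hYO c hh.1 hc
      rcases ec_cases hd with h1 | h1 | ⟨r, r1, r2⟩
      · rw [h1]
      · rw [hV _ _ h1, gO b c hb, if_neg hc1, add_zero]
      · rw [hV _ _ r2, hV _ _ r1, gO b r hb, hgs r c, gO c r hc, add_assoc, ec_two, add_zero]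
  -- (3)
  have V3 : ∀ o ∈ O, ∀ w ∈ Y1, di o w ≤ 1 → V w = V o + 1 := by
    intro o ho w hw hd
    rcases ec_cases hd with h1 | h1 | ⟨r, r1, r2⟩
    · exact absurd (h1 ▸ ho) (hYO w hw.1)
    · rw [hV _ _ h1, gO o w ho, if_pos hw]
    · by_cases hr : r ∈ O
      · have hr1 : r ∉ Y1 := fun hh => hYO r hh.1 hr
        rw [hV _ _ r2, hV _ _ r1, gO o r ho, if_neg hr1, gO r w hr, if_pos hw, add_zero]
      · have hrY : r ∈ Y := ⟨h.bd o ho r (ec_nn_di r1) hr, o, ho, ec_nn_di r1⟩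
        have hr1 : r ∈ Y1 := hadj w hw r hrY (ec_nn_symm r2)
        rw [hV _ _ r2, hV _ _ r1, gO o r ho, if_pos hr1, g0 r w hr (hYO w hw.1), add_zero]
  -- (4)
  have V4 : ∀ o ∈ O, ∀ w ∈ Y, w ∉ Y1 → di o w ≤ 1 → V w = V o := by
    intro o ho w hw hw1 hd
    rcases ec_cases hd with h1 | h1 | ⟨r, r1, r2⟩
    · exact absurd (h1 ▸ ho) (hYO w hw)
    · rw [hV _ _ h1, gO o w ho, if_neg hw1, add_zero]
    · by_cases hr : r ∈ O
      · have hr1 : r ∉ Y1 := fun hh => hYO r hh.1 hr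
        rw [hV _ _ r2, hV _ _ r1, gO o r ho, if_neg hr1, gO r w hr, if_neg hw1, add_zero,
          add_zero]
      · have hrY : r ∈ Y := ⟨h.bd o ho r (ec_nn_di r1) hr, o, ho, ec_nn_di r1⟩
        have hr1 : r ∉ Y1 := fun hh => hw1 (hadj r hh w hw r2)
        rw [hV _ _ r2, hV _ _ r1, gO o r ho, if_neg hr1, g0 r w hr (hYO w hw), add_zero,
          add_zero]
  obtain ⟨o, ho, hod⟩ := hx'
  obtain ⟨o2, ho2, hod2⟩ := hy'
  have e1 := V3 o ho x hx1 hod
  have e2 := V4 o2 ho2 y hyY hy1 hod2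
  have e3 := V1 x y (h.conn x hx y hy)
  have e4 := V2 o o2 (h.star o ho o2 ho2)
  rw [e1, e2, e4] at e3
  have e5 : (1 : ZMod 2) = 0 := by
    have := congrArg (fun z => z - V o2) e3
    simpa using this
  exact absurd e5 (by decide)

end HK
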