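import Mathlib
import Pool.Agent.Lib_helper80.HK.DefsP
import Pool.Agent.Lib_helper80.HK.W.ea

set_option autoImplicit false

namespace HK

open Relation

theorem ext_step {B : Set (ℤ × ℤ)} {x y : ℤ × ℤ} (hx : x ∈ Ext B) (h : nn x y) (hy : y ∉ B) :
    y ∈ Ext B := by
  refine ⟨hy, ?_⟩
  intro r
  obtain ⟨k', hk', hp⟩ := hx.2 r
  exact ⟨k', hk', ReflTransGen.head ⟨nn_symm h, hy, hx.1⟩ hp⟩

theorem ee_mono {α : Type} {r p : α → α → Prop} (h : ∀ a b, r a b → p a b) {x y : α}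
    (hxy : ReflTransGen r x y) : ReflTransGen p x y := by
  induction hxy with
  | refl => exact ReflTransGen.refl
  | tail _ h2 ih => exact ih.tail (h _ _ h2)

theorem ee_out (B : Finset (ℤ × ℤ)) : ∃ r : ℕ, ∀ x, r ≤ di 0 x → x ∉ B := by
  refine ⟨B.sup (di 0) + 1, ?_⟩
  intro x hx hxB
  have := Finset.le_sup (f := di 0) hxB
  omega

theorem ext_far (B : Finset (ℤ × ℤ)) : ∃ r : ℕ, ∀ x, r ≤ di 0 x → x ∈ Ext (B : Set (ℤ × ℤ)) := by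
  obtain ⟨r, hr⟩ := ee_out B
  refine ⟨r, ?_⟩
  intro x hx
  refine ⟨fun h => hr x hx (by exact_mod_cast h), ?_⟩
  intro R
  have hk : di 0 ((((max r R : ℕ) : ℤ), 0) : ℤ × ℤ) = max r R := by
    unfold di
    simp only [Prod.fst_zero, Prod.snd_zero, sub_self, Int.natAbs_zero, zero_sub, Int.natAbs_neg,
      Int.natAbs_natCast]
    omega
  refine ⟨(((max r R : ℕ) : ℤ), 0), ?_, ?_⟩
  · rw [hk]
    exact le_max_right _ _
  · have h1 : ReflTransGen (sn {w | r ≤ di 0 w}) x (((max r R : ℕ) : ℤ), 0) := by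
      apply out_conn hx
      rw [hk]
      exact le_max_left _ _
    refine ee_mono ?_ h1
    intro a b hab
    exact ⟨hab.1, fun h => hr a hab.2.1 (by exact_mod_cast h),
      fun h => hr b hab.2.2 (by exact_mod_cast h)⟩

theorem ee_sn_symm {Q : Set (ℤ × ℤ)} {x y : ℤ × ℤ} (h : ReflTransGen (sn Q) x y) :
    ReflTransGen (sn Q) y x := by
  induction h with
  | refl => exact ReflTransGen.refl
  | tail _ h2 ih => exact ReflTransGen.head ⟨nn_symm h2.1, h2.2.2, h2.2.1⟩ ih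

theorem ee_st_symm {Q : Set (ℤ × ℤ)} {x y : ℤ × ℤ} (h : ReflTransGen (st Q) x y) :
    ReflTransGen (st Q) y x := by
  induction h with
  | refl => exact ReflTransGen.refl
  | tail _ h2 ih =>
    exact ReflTransGen.head ⟨by rw [di_comm]; exact h2.1, h2.2.2, h2.2.1⟩ ih

theorem ee_conv {B : Set (ℤ × ℤ)} {x y : ℤ × ℤ} (hx : x ∈ Ext B)
    (h : ReflTransGen (av B) x y) : ReflTransGen (sn (Ext B)) x y ∧ y ∈ Ext B := by
  induction h with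
  | refl => exact ⟨ReflTransGen.refl, hx⟩
  | tail _ h2 ih =>
    have h3 := ext_step ih.2 h2.1 h2.2.2
    exact ⟨ih.1.tail ⟨h2.1, ih.2, h3⟩, h3⟩

theorem ext_conn (B : Finset (ℤ × ℤ)) {x y : ℤ × ℤ} (hx : x ∈ Ext (B : Set (ℤ × ℤ)))
    (hy : y ∈ Ext (B : Set (ℤ × ℤ))) : ReflTransGen (sn (Ext (B : Set (ℤ × ℤ)))) x y := by
  obtain ⟨r, hr⟩ := ext_far B
  obtain ⟨x', hx', h1⟩ := hx.2 r
  obtain ⟨y', hy', h2⟩ := hy.2 r
  have h3 : ReflTransGen (sn {w | r ≤ di 0 w}) x' y' := out_conn hx' hy'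
  have h4 : ReflTransGen (sn (Ext (B : Set (ℤ × ℤ)))) x' y' := by
    refine ee_mono ?_ h3
    intro a b hab
    exact ⟨hab.1, hr a hab.2.1, hr b hab.2.2⟩
  exact ((ee_conv hx h1).1.trans h4).trans (ee_sn_symm (ee_conv hy h2).1)

theorem sco_sub (B : Finset (ℤ × ℤ)) {k : ℤ × ℤ} (hk : k ∉ Ext (B : Set (ℤ × ℤ))) {u : ℤ × ℤ}
    (hu : u ∈ sco (Ext (B : Set (ℤ × ℤ)))ᶜ k) : u ∉ Ext (B : Set (ℤ × ℤ)) := by
  have hu' : ReflTransGen (st (Ext (B : Set (ℤ × ℤ)))ᶜ) k u := hu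
  rcases ReflTransGen.cases_tail hu' with h | ⟨c, _, h⟩
  · rw [h]
    exact hk
  · exact h.2.2

theorem ee_star {Q : Set (ℤ × ℤ)} {k x y : ℤ × ℤ} (hx : x ∈ sco Q k)
    (h : ReflTransGen (st Q) x y) : ReflTransGen (st (sco Q k)) x y ∧ y ∈ sco Q k := by
  induction h with
  | refl => exact ⟨ReflTransGen.refl, hx⟩
  | tail _ h2 ih =>
    have h3 : ReflTransGen (st Q) k _ := ReflTransGen.tail ih.2 h2
    exact ⟨ih.1.tail ⟨h2.1, ih.2, h3⟩, h3⟩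

theorem sco_sep (B : Finset (ℤ × ℤ)) {k : ℤ × ℤ} (hk : k ∉ Ext (B : Set (ℤ × ℤ))) :
    Sep (sco (Ext (B : Set (ℤ × ℤ)))ᶜ k) (Ext (B : Set (ℤ × ℤ))) := by
  refine ⟨?_, ?_, ?_, ?_⟩
  · intro x hx y hy
    have hx' : ReflTransGen (st (Ext (B : Set (ℤ × ℤ)))ᶜ) k x := hx
    have hy' : ReflTransGen (st (Ext (B : Set (ℤ × ℤ)))ᶜ) k y := hy
    exact (ee_star hx ((ee_st_symm hx').trans hy')).1
  · intro x hx y hy
    exact ext_conn B hx hy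
  · intro x hx
    exact sco_sub B hk hx
  · intro x hx y hxy hy
    by_contra hcon
    apply hy
    exact ReflTransGen.tail hx ⟨hxy, sco_sub B hk hx, hcon⟩

theorem sco_fin (B : Finset (ℤ × ℤ)) {k : ℤ × ℤ} (hk : k ∉ Ext (B : Set (ℤ × ℤ))) :
    (sco (Ext (B : Set (ℤ × ℤ)))ᶜ k).Finite := by
  obtain ⟨r, hr⟩ := ext_far B
  apply Set.Finite.subset (Set.finite_Icc ((-(r : ℤ), -(r : ℤ)) : ℤ × ℤ) ((r : ℤ), (r : ℤ)))
  intro u hu
  have h1 : ¬ r ≤ di 0 u := fun h => sco_sub B hk hu (hr u h)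
  unfold di at h1
  simp only [Prod.fst_zero, Prod.snd_zero, zero_sub, Int.natAbs_neg] at h1
  rw [Set.mem_Icc, Prod.le_def, Prod.le_def]
  refine ⟨⟨?_, ?_⟩, ?_, ?_⟩ <;> simp only <;> omega

/-- neighbours have the same component -/
theorem sco_eq (B : Finset (ℤ × ℤ)) {k k' : ℤ × ℤ} (hk : k ∉ Ext (B : Set (ℤ × ℤ)))
    (hk' : k' ∉ Ext (B : Set (ℤ × ℤ))) (h : di k k' ≤ 1) :
    sco (Ext (B : Set (ℤ × ℤ)))ᶜ k = sco (Ext (B : Set (ℤ × ℤ)))ᶜ k' := by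
  have h1 : st (Ext (B : Set (ℤ × ℤ)))ᶜ k k' := ⟨h, hk, hk'⟩
  have h2 : st (Ext (B : Set (ℤ × ℤ)))ᶜ k' k := ⟨by rw [di_comm]; exact h, hk', hk⟩
  ext u
  constructor
  · intro hu
    exact ReflTransGen.head h2 hu
  · intro hu
    exact ReflTransGen.head h1 hu

theorem ee_bdd (B : Finset (ℤ × ℤ)) {k : ℤ × ℤ} (hk : k ∉ Ext (B : Set (ℤ × ℤ))) :
    BddAbove {r | ∃ u ∈ sco (Ext (B : Set (ℤ × ℤ)))ᶜ k, r = di k u + 1} := by
  apply Set.Finite.bddAbove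
  apply Set.Finite.subset ((sco_fin B hk).image (fun u => di k u + 1))
  rintro r ⟨u, hu, rfl⟩
  exact ⟨u, hu, rfl⟩

theorem rad_ge (B : Finset (ℤ × ℤ)) {k u : ℤ × ℤ} (hk : k ∉ Ext (B : Set (ℤ × ℤ)))
    (hu : u ∈ sco (Ext (B : Set (ℤ × ℤ)))ᶜ k) : di k u + 1 ≤ rad (B : Set (ℤ × ℤ)) k := by
  unfold rad
  rw [if_neg hk]
  exact le_csSup (ee_bdd B hk) ⟨u, hu, rfl⟩

theorem rad_att (B : Finset (ℤ × ℤ)) {k : ℤ × ℤ} (hk : k ∉ Ext (B : Set (ℤ × ℤ))) :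
    ∃ u ∈ sco (Ext (B : Set (ℤ × ℤ)))ᶜ k, rad (B : Set (ℤ × ℤ)) k = di k u + 1 := by
  unfold rad
  rw [if_neg hk]
  have h1 : {r | ∃ u ∈ sco (Ext (B : Set (ℤ × ℤ)))ᶜ k, r = di k u + 1}.Nonempty :=
    ⟨di k k + 1, k, ReflTransGen.refl, rfl⟩
  have h2 := Nat.sSup_mem h1 (ee_bdd B hk)
  exact h2

end HK
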