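import Mathlib
import Pool.Agent.Lib_helper80.HK.DefsP
import Pool.Agent.Lib_helper80.HK.W.ea
import Pool.Agent.Lib_helper80.HK.W.ec
import Pool.Agent.Lib_helper80.HK.W.ee

set_option autoImplicit false

namespace HK

open Relation

theorem ef_rep_in (B : Finset (ℤ × ℤ)) {k : ℤ × ℤ} (hk : k ∈ Ext (B : Set (ℤ × ℤ))) :
    rep (B : Set (ℤ × ℤ)) k = k := by
  unfold rep
  rw [if_pos hk]

theorem ef_self (B : Finset (ℤ × ℤ)) (k : ℤ × ℤ) :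
    k ∈ sco (Ext (B : Set (ℤ × ℤ)))ᶜ k := ReflTransGen.refl

theorem ef_ex (B : Finset (ℤ × ℤ)) {k : ℤ × ℤ} (hk : k ∉ Ext (B : Set (ℤ × ℤ))) :
    ∃ y, y ∈ Ext (B : Set (ℤ × ℤ)) ∧ ∃ u ∈ sco (Ext (B : Set (ℤ × ℤ)))ᶜ k, di u y ≤ 1 := by
  obtain ⟨u, hu, hmax⟩ := Set.exists_max_image (sco (Ext (B : Set (ℤ × ℤ)))ᶜ k) (fun w => w.1)
    (sco_fin B hk) ⟨k, ef_self B k⟩
  have hd : di u (u.1 + 1, u.2) ≤ 1 := by
    unfold di
    simp
  refine ⟨(u.1 + 1, u.2), ?_, u, hu, hd⟩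
  refine (sco_sep B hk).bd u hu _ hd ?_
  intro h
  have := hmax _ h
  simp only at this
  omega

theorem ef_rep_out (B : Finset (ℤ × ℤ)) {k : ℤ × ℤ} (hk : k ∉ Ext (B : Set (ℤ × ℤ))) :
    rep (B : Set (ℤ × ℤ)) k ∈ Ext (B : Set (ℤ × ℤ)) ∧
      ∃ u ∈ sco (Ext (B : Set (ℤ × ℤ)))ᶜ k, di u (rep (B : Set (ℤ × ℤ)) k) ≤ 1 := by
  unfold rep
  rw [if_neg hk]
  exact Classical.epsilon_spec (ef_ex B hk)

theorem ef_rep_mem (B : Finset (ℤ × ℤ)) (k : ℤ × ℤ) :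
    rep (B : Set (ℤ × ℤ)) k ∈ Ext (B : Set (ℤ × ℤ)) := by
  by_cases hk : k ∈ Ext (B : Set (ℤ × ℤ))
  · rw [ef_rep_in B hk]
    exact hk
  · exact (ef_rep_out B hk).1

theorem ef_dist (B : Finset (ℤ × ℤ)) (k : ℤ × ℤ) :
    di k (rep (B : Set (ℤ × ℤ)) k) ≤ rad (B : Set (ℤ × ℤ)) k := by
  by_cases hk : k ∈ Ext (B : Set (ℤ × ℤ))
  · rw [ef_rep_in B hk, di_self]
    exact Nat.zero_le _
  · obtain ⟨u, hu, h1⟩ := (ef_rep_out B hk).2
    have h2 := rad_ge B hk hu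
    have h3 := di_tri k u (rep (B : Set (ℤ × ℤ)) k)
    omega

/-- detours around a finite set -/
theorem det_rep (B : Finset (ℤ × ℤ)) :
    Det (B : Set (ℤ × ℤ)) (rad (B : Set (ℤ × ℤ))) (rep (B : Set (ℤ × ℤ))) := by
  refine ⟨fun k => (ef_rep_mem B k).1, ef_dist B, ?_⟩
  intro k k' hkk
  have hd := di_nn hkk
  have hd' : di k' k ≤ 1 := by
    rw [di_comm, hd]
  by_cases hk : k ∈ Ext (B : Set (ℤ × ℤ))
  · by_cases hk' : k' ∈ Ext (B : Set (ℤ × ℤ))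
    · have hc : ReflTransGen (sn ({k, k'} : Set (ℤ × ℤ))) k k' :=
        ReflTransGen.single ⟨hkk, by simp, by simp⟩
      obtain ⟨N, γ, h1, h2, h3, h4⟩ := npath_of (by simp) hc
      refine ⟨N, γ, h1, by rw [ef_rep_in B hk, h2], by rw [ef_rep_in B hk', h3], ?_⟩
      intro j hj
      rcases h4 j hj with h5 | h5
      · rw [h5]
        refine ⟨hk.1, ?_⟩
        rw [di_self]
        exact Nat.zero_le _
      · rw [Set.mem_singleton_iff] at h5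
        rw [h5]
        refine ⟨hk'.1, ?_⟩
        omega
    · obtain ⟨hr1, hr2⟩ := ef_rep_out B hk'
      have hc := outer_conn (sco_sep B hk') hk ⟨k', ef_self B k', hd'⟩ hr1 hr2
      obtain ⟨N, γ, h1, h2, h3, h4⟩ := npath_of
        (Q := {w | w ∈ Ext (B : Set (ℤ × ℤ)) ∧ ∃ o ∈ sco (Ext (B : Set (ℤ × ℤ)))ᶜ k', di o w ≤ 1})
        ⟨hk, k', ef_self B k', hd'⟩ hc
      refine ⟨N, γ, h1, by rw [ef_rep_in B hk, h2], h3, ?_⟩
      intro j hj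
      obtain ⟨h5, u, hu, h6⟩ := h4 j hj
      refine ⟨h5.1, ?_⟩
      have h7 := rad_ge B hk' hu
      have h8 := di_tri k k' (γ j)
      have h9 := di_tri k' u (γ j)
      omega
  · by_cases hk' : k' ∈ Ext (B : Set (ℤ × ℤ))
    · obtain ⟨hr1, hr2⟩ := ef_rep_out B hk
      have hc := outer_conn (sco_sep B hk) hr1 hr2 hk' ⟨k, ef_self B k, hd.le⟩
      obtain ⟨N, γ, h1, h2, h3, h4⟩ := npath_of
        (Q := {w | w ∈ Ext (B : Set (ℤ × ℤ)) ∧ ∃ o ∈ sco (Ext (B : Set (ℤ × ℤ)))ᶜ k, di o w ≤ 1})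
        ⟨hr1, hr2⟩ hc
      refine ⟨N, γ, h1, h2, by rw [ef_rep_in B hk', h3], ?_⟩
      intro j hj
      obtain ⟨h5, u, hu, h6⟩ := h4 j hj
      refine ⟨h5.1, ?_⟩
      have h7 := rad_ge B hk hu
      have h9 := di_tri k u (γ j)
      omega
    · have he : rep (B : Set (ℤ × ℤ)) k = rep (B : Set (ℤ × ℤ)) k' := by
        unfold rep
        rw [if_neg hk, if_neg hk', sco_eq B hk hk' hd.le]
      refine ⟨0, fun _ => rep (B : Set (ℤ × ℤ)) k, ⟨fun j hj => absurd hj (Nat.not_lt_zero j), ?_⟩,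
        rfl, he, ?_⟩
      · intro a ha b hb _
        simp only [Set.mem_Iic, Nat.le_zero] at ha hb
        rw [ha, hb]
      · intro j _
        refine ⟨(ef_rep_mem B k).1, ?_⟩
        have := ef_dist B k
        simp only
        omega

end HK
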