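import Mathlib
import Pool.Agent.Lib_helper80.HK.DefsP
import Pool.Agent.Lib_helper80.HK.W.eb

set_option autoImplicit false

namespace HK

open Relation

theorem ed_nn_iff (x y : ℤ × ℤ) : nn x y ↔ (x.1 - y.1).natAbs + (x.2 - y.2).natAbs = 1 := by
  unfold nn
  rw [Int.abs_eq_natAbs, Int.abs_eq_natAbs]
  exact_mod_cast Iff.rfl

theorem ed_di_iff (x y : ℤ × ℤ) : di x y ≤ 1 ↔ (x.1 - y.1).natAbs ≤ 1 ∧ (x.2 - y.2).natAbs ≤ 1 := by
  unfold di
  exact max_le_iff

theorem ed_nn_symm {x y : ℤ × ℤ} (h : nn x y) : nn y x := by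
  rw [ed_nn_iff] at h ⊢
  omega

theorem ed_di_symm {x y : ℤ × ℤ} (h : di x y ≤ 1) : di y x ≤ 1 := by
  rw [ed_di_iff] at h ⊢
  omega

theorem ed_nn_di {x y : ℤ × ℤ} (h : nn x y) : di x y ≤ 1 := by
  rw [ed_nn_iff] at h
  rw [ed_di_iff]
  omega

theorem ed_cases {x y : ℤ × ℤ} (h : di x y ≤ 1) :
    x = y ∨ nn x y ∨ ∃ p, nn x p ∧ nn p y := by
  rw [ed_di_iff] at h
  by_cases h1 : x.1 = y.1
  · by_cases h2 : x.2 = y.2
    · exact Or.inl (Prod.ext h1 h2)
    · right; left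
      rw [ed_nn_iff]
      omega
  · by_cases h2 : x.2 = y.2
    · right; left
      rw [ed_nn_iff]
      omega
    · right; right
      refine ⟨(x.1, y.2), ?_, ?_⟩
      · rw [ed_nn_iff]
        show (x.1 - x.1).natAbs + (x.2 - y.2).natAbs = 1
        omega
      · rw [ed_nn_iff]
        show (x.1 - y.1).natAbs + (y.2 - y.2).natAbs = 1
        omega

theorem ed_two (a : ZMod 2) : a + a = 0 := CharTwo.add_self_eq_zero a

/-- the inner boundary is `*`-connected -/
theorem inner_conn {O C : Set (ℤ × ℤ)} (h : Sep O C) {x y : ℤ × ℤ} (hx : x ∈ O)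
    (hx' : ∃ c ∈ C, nn x c) (hy : y ∈ O) (hy' : ∃ c ∈ C, nn y c) :
    ReflTransGen (st {w | w ∈ O ∧ ∃ c ∈ C, nn w c}) x y := by
  classical
  by_contra hcon
  set Y : Set (ℤ × ℤ) := {w | w ∈ O ∧ ∃ c ∈ C, nn w c} with hY
  set U : Set (ℤ × ℤ) := {w | w ∈ Y ∧ ReflTransGen (st Y) x w} with hU
  have hxY : x ∈ Y := ⟨hx, hx'⟩
  have hyY : y ∈ Y := ⟨hy, hy'⟩
  have hx1 : x ∈ U := ⟨hxY, ReflTransGen.refl⟩
  have hy1 : y ∉ U := fun hh => hcon hh.2
  have hOC : ∀ w ∈ O, w ∉ C := h.disj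
  have hUO : ∀ w ∈ U, w ∈ O := fun w hw => hw.1.1
  have hadj : ∀ p ∈ U, ∀ q ∈ Y, di p q ≤ 1 → q ∈ U := fun p hp q hq hpq =>
    ⟨hq, hp.2.tail ⟨hpq, hp.1, hq⟩⟩
  set g : ℤ × ℤ → ℤ × ℤ → ZMod 2 := fun p q =>
    if (p ∈ C ∧ q ∈ U) ∨ (p ∈ U ∧ q ∈ C) then 1 else 0 with hg
  have hgs : ∀ p q, g p q = g q p := by
    intro p q
    simp only [hg]
    congr 1
    apply propext
    tauto
  have g0 : ∀ p q, p ∉ U → q ∉ U → g p q = 0 := by
    intro p q hp hq
    simp only [hg]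
    rw [if_neg]
    rintro (hh | hh)
    · exact hq hh.2
    · exact hp hh.1
  have gC : ∀ p q, p ∉ C → q ∉ C → g p q = 0 := by
    intro p q hp hq
    simp only [hg]
    rw [if_neg]
    rintro (hh | hh)
    · exact hp hh.1
    · exact hq hh.2
  have gUC : ∀ p q, p ∈ U → q ∈ C → g p q = 1 := by
    intro p q hp hq
    simp only [hg]
    rw [if_pos (Or.inr ⟨hp, hq⟩)]
  have hβ : ∀ u ∈ U, ∀ p q, di u p ≤ 1 → di u q ≤ 1 → nn p q →
      g p q = (if p ∈ C then 1 else 0) + (if q ∈ C then 1 else 0) := by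
    intro u hu p q hp hq hpq
    have huO := hUO u hu
    by_cases hpO : p ∈ O
    · have hpC := hOC p hpO
      by_cases hqO : q ∈ O
      · have hqC := hOC q hqO
        rw [gC p q hpC hqC, if_neg hpC, if_neg hqC, add_zero]
      · have hqC := h.bd u huO q hq hqO
        have hpU : p ∈ U := hadj u hu p ⟨hpO, q, hqC, hpq⟩ hp
        rw [gUC p q hpU hqC, if_neg hpC, if_pos hqC, zero_add]
    · have hpC := h.bd u huO p hp hpO
      by_cases hqO : q ∈ O
      · have hqC := hOC q hqO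
        have hqU : q ∈ U := hadj u hu q ⟨hqO, p, hpC, ed_nn_symm hpq⟩ hq
        rw [hgs p q, gUC q p hqU hpC, if_pos hpC, if_neg hqC, add_zero]
      · have hqC := h.bd u huO q hq hqO
        rw [g0 p q (fun hh => hpO (hUO p hh)) (fun hh => hqO (hUO q hh)), if_pos hpC, if_pos hqC,
          ed_two]
  obtain ⟨V, hV⟩ := potential' g hgs (by
    intro i j
    have n1 : nn (i, j) (i + 1, j) := by
      rw [ed_nn_iff]
      show (i - (i + 1)).natAbs + (j - j).natAbs = 1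
      omega
    have n2 : nn (i + 1, j) (i + 1, j + 1) := by
      rw [ed_nn_iff]
      show (i + 1 - (i + 1)).natAbs + (j - (j + 1)).natAbs = 1
      omega
    have n3 : nn (i, j + 1) (i + 1, j + 1) := by
      rw [ed_nn_iff]
      show (i - (i + 1)).natAbs + (j + 1 - (j + 1)).natAbs = 1
      omega
    have n4 : nn (i, j) (i, j + 1) := by
      rw [ed_nn_iff]
      show (i - i).natAbs + (j - (j + 1)).natAbs = 1
      omega
    by_cases hO : ∃ o ∈ U, di o (i, j) ≤ 1 ∧ di o (i + 1, j) ≤ 1 ∧ di o (i + 1, j + 1) ≤ 1 ∧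
        di o (i, j + 1) ≤ 1
    · obtain ⟨o, ho, d1, d2, d3, d4⟩ := hO
      rw [hβ o ho _ _ d1 d2 n1, hβ o ho _ _ d2 d3 n2, hβ o ho _ _ d4 d3 n3, hβ o ho _ _ d1 d4 n4]
      generalize (if ((i, j) : ℤ × ℤ) ∈ C then (1 : ZMod 2) else 0) = a1
      generalize (if ((i + 1, j) : ℤ × ℤ) ∈ C then (1 : ZMod 2) else 0) = a2
      generalize (if ((i + 1, j + 1) : ℤ × ℤ) ∈ C then (1 : ZMod 2) else 0) = a3
      generalize (if ((i, j + 1) : ℤ × ℤ) ∈ C then (1 : ZMod 2) else 0) = a4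
      have e : a1 + a2 + (a2 + a3) + (a4 + a3) + (a1 + a4) =
          (a1 + a1) + (a2 + a2) + (a3 + a3) + (a4 + a4) := by ring
      rw [e]
      simp only [ed_two, add_zero]
    · have hno : ∀ o ∈ U, ¬ (di o (i, j) ≤ 1 ∧ di o (i + 1, j) ≤ 1 ∧ di o (i + 1, j + 1) ≤ 1 ∧
          di o (i, j + 1) ≤ 1) := fun o ho hh => hO ⟨o, ho, hh⟩
      have m1 : ((i, j) : ℤ × ℤ) ∉ U := by
        intro ho
        apply hno _ ho
        simp only [ed_di_iff]
        omega
      have m2 : ((i + 1, j) : ℤ × ℤ) ∉ U := by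
        intro ho
        apply hno _ ho
        simp only [ed_di_iff]
        omega
      have m3 : ((i + 1, j + 1) : ℤ × ℤ) ∉ U := by
        intro ho
        apply hno _ ho
        simp only [ed_di_iff]
        omega
      have m4 : ((i, j + 1) : ℤ × ℤ) ∉ U := by
        intro ho
        apply hno _ ho
        simp only [ed_di_iff]
        omega
      rw [g0 _ _ m1 m2, g0 _ _ m2 m3, g0 _ _ m4 m3, g0 _ _ m1 m4]
      rfl)
  -- (1)
  have V1 : ∀ p q, ReflTransGen (sn C) p q → V p = V q := by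
    intro p q hpq
    induction hpq with
    | refl => rfl
    | tail _ hst ih =>
      rw [ih, hV _ _ hst.1, g0 _ _ (fun hu => hOC _ (hUO _ hu) hst.2.1)
        (fun hu => hOC _ (hUO _ hu) hst.2.2), add_zero]
  -- (2)
  have V2 : ∀ p q, ReflTransGen (st O) p q → V p = V q := by
    intro p q hpq
    induction hpq with
    | refl => rfl
    | @tail b c _ hst ih =>
      rw [ih]
      obtain ⟨hd, hb, hc⟩ := hst
      have hbC := hOC b hb
      have hcC := hOC c hc
      rcases ed_cases hd with h1 | h1 | ⟨r, r1, r2⟩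
      · rw [h1]
      · rw [hV _ _ h1, gC b c hbC hcC, add_zero]
      · by_cases hr : r ∈ O
        · have hrC := hOC r hr
          rw [hV _ _ r2, hV _ _ r1, gC b r hbC hrC, gC r c hrC hcC, add_zero, add_zero]
        · have hrC := h.bd b hb r (ed_nn_di r1) hr
          have hbY : b ∈ Y := ⟨hb, r, hrC, r1⟩
          have hcY : c ∈ Y := ⟨hc, r, hrC, ed_nn_symm r2⟩
          have hrU : r ∉ U := fun hh => hr (hUO r hh)
          by_cases hbU : b ∈ U
          · have hcU : c ∈ U := hadj b hbU c hcY hd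
            rw [hV _ _ r2, hV _ _ r1, gUC b r hbU hrC, hgs r c, gUC c r hcU hrC, add_assoc,
              ed_two, add_zero]
          · have hcU : c ∉ U := fun hh => hbU (hadj c hh b hbY (ed_di_symm hd))
            rw [hV _ _ r2, hV _ _ r1, g0 b r hbU hrU, g0 r c hrU hcU, add_zero, add_zero]
  obtain ⟨c, hc, hxc⟩ := hx'
  obtain ⟨c', hc', hyc⟩ := hy'
  have e1 : V c = V x + 1 := by rw [hV _ _ hxc, gUC x c hx1 hc]
  have e2 : V c' = V y := by
    rw [hV _ _ hyc, g0 y c' hy1 (fun hh => hOC c' (hUO c' hh) hc'), add_zero]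
  have e3 := V1 c c' (h.conn c hc c' hc')
  have e4 := V2 x y (h.star x hx y hy)
  rw [e1, e2, e4] at e3
  have e5 : (1 : ZMod 2) = 0 := by
    have := congrArg (fun z => z - V y) e3
    simpa using this
  exact absurd e5 (by decide)

end HK
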