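import Mathlib
import Pool.Agent.Lib_helper80.HK.DefsP
import Pool.Agent.Lib_helper80.HK.W.ea
import Pool.Agent.Lib_helper80.HK.W.ed
import Pool.Agent.Lib_helper80.HK.W.ee

set_option autoImplicit false

namespace HK

theorem eg_edge (B : Finset (ℤ × ℤ)) {k w c : ℤ × ℤ} (hk : k ∉ Ext (B : Set (ℤ × ℤ)))
    (hw : w ∈ sco (Ext (B : Set (ℤ × ℤ)))ᶜ k) (hc : nn w c)
    (hcU : c ∉ sco (Ext (B : Set (ℤ × ℤ)))ᶜ k) : ∃ c ∈ Ext (B : Set (ℤ × ℤ)), nn w c := by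
  refine ⟨c, ?_, hc⟩
  exact (sco_sep B hk).bd w hw c (di_nn hc).le hcU

theorem eg_inB (B : Finset (ℤ × ℤ)) {k w : ℤ × ℤ} (hk : k ∉ Ext (B : Set (ℤ × ℤ)))
    (hw : w ∈ sco (Ext (B : Set (ℤ × ℤ)))ᶜ k)
    (h : ∃ c ∈ Ext (B : Set (ℤ × ℤ)), nn w c) : w ∈ B := by
  obtain ⟨c, hc, hn⟩ := h
  by_contra hB
  exact sco_sub B hk hw (ext_step hc (nn_symm hn) (fun h => hB (by exact_mod_cast h)))

theorem eg_nn (w : ℤ × ℤ) : nn w (w + (1, 0)) ∧ nn w (w + (-1, 0)) ∧ nn w (w + (0, 1)) ∧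
    nn w (w + (0, -1)) := by
  unfold nn
  simp

theorem eg_not (B : Finset (ℤ × ℤ)) {k : ℤ × ℤ} (h : 1 ≤ rad (B : Set (ℤ × ℤ)) k) :
    k ∉ Ext (B : Set (ℤ × ℤ)) := by
  intro hk
  unfold rad at h
  rw [if_pos hk] at h
  omega

/-- the last vertex on the ray -/
theorem eg_ray (B : Finset (ℤ × ℤ)) {k : ℤ × ℤ} (hk : k ∉ Ext (B : Set (ℤ × ℤ))) :
    ∃ i : ℕ, k + ((i : ℤ), 0) ∈ sco (Ext (B : Set (ℤ × ℤ)))ᶜ k ∧
      ∃ c ∈ Ext (B : Set (ℤ × ℤ)), nn (k + ((i : ℤ), 0)) c := by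
  have hfin := sco_fin B hk
  have hkU : k ∈ sco (Ext (B : Set (ℤ × ℤ)))ᶜ k := Relation.ReflTransGen.refl
  obtain ⟨w, ⟨hwU, hw2, hw1⟩, hmax⟩ := Set.exists_max_image
    {w | w ∈ sco (Ext (B : Set (ℤ × ℤ)))ᶜ k ∧ w.2 = k.2 ∧ k.1 ≤ w.1} (fun w => w.1)
    (hfin.subset (fun w hw => hw.1)) ⟨k, hkU, rfl, le_refl _⟩
  have he : k + ((((w.1 - k.1).toNat : ℕ) : ℤ), 0) = w := by
    rw [Prod.ext_iff]
    simp only [Prod.fst_add, Prod.snd_add]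
    constructor <;> omega
  refine ⟨(w.1 - k.1).toNat, ?_, ?_⟩
  · rw [he]
    exact hwU
  · rw [he]
    apply eg_edge B hk hwU (eg_nn w).1
    intro hcon
    have := hmax (w + (1, 0)) ⟨hcon, by simpa using hw2, by
      simp only [Prod.fst_add]
      omega⟩
    simp only [Prod.fst_add] at this
    omega

/-- the extremal vertex in the direction `d` for the functional `f` -/
theorem eg_ext (B : Finset (ℤ × ℤ)) {k : ℤ × ℤ} (hk : k ∉ Ext (B : Set (ℤ × ℤ)))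
    (f : ℤ × ℤ → ℤ) (d : ℤ × ℤ) (hd : ∀ w, nn w (w + d)) (hf : ∀ w, f w < f (w + d)) :
    ∃ w ∈ sco (Ext (B : Set (ℤ × ℤ)))ᶜ k, (∃ c ∈ Ext (B : Set (ℤ × ℤ)), nn w c) ∧
      ∀ v ∈ sco (Ext (B : Set (ℤ × ℤ)))ᶜ k, f v ≤ f w := by
  have hfin := sco_fin B hk
  have hkU : k ∈ sco (Ext (B : Set (ℤ × ℤ)))ᶜ k := Relation.ReflTransGen.refl
  obtain ⟨w, hwU, hmax⟩ := Set.exists_max_image
    (sco (Ext (B : Set (ℤ × ℤ)))ᶜ k) f hfin ⟨k, hkU⟩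
  refine ⟨w, hwU, ?_, hmax⟩
  apply eg_edge B hk hwU (hd w)
  intro hcon
  have := hmax (w + d) hcon
  have := hf w
  omega

/-- the far extremal vertex -/
theorem eg_far (B : Finset (ℤ × ℤ)) {k : ℤ × ℤ} (hk : k ∉ Ext (B : Set (ℤ × ℤ))) (s : ℕ)
    (h : s + 1 ≤ rad (B : Set (ℤ × ℤ)) k) :
    ∃ w ∈ sco (Ext (B : Set (ℤ × ℤ)))ᶜ k, (∃ c ∈ Ext (B : Set (ℤ × ℤ)), nn w c) ∧
      s ≤ di k w := by
  obtain ⟨v, hv, hr⟩ := rad_att B hk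
  have h1 : s ≤ di k v := by omega
  have h2 : (s : ℤ) ≤ v.1 - k.1 ∨ (s : ℤ) ≤ k.1 - v.1 ∨ (s : ℤ) ≤ v.2 - k.2 ∨
      (s : ℤ) ≤ k.2 - v.2 := by
    unfold di at h1
    rcases le_max_iff.1 h1 with h3 | h3
    · omega
    · omega
  rcases h2 with h3 | h3 | h3 | h3
  · obtain ⟨w, hw, hc, hm⟩ := eg_ext B hk (fun w => w.1) (1, 0) (fun w => (eg_nn w).1)
      (fun w => by simp)
    refine ⟨w, hw, hc, ?_⟩
    have := hm v hv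
    have h4 : s ≤ (k.1 - w.1).natAbs := by omega
    exact h4.trans (le_max_left _ _)
  · obtain ⟨w, hw, hc, hm⟩ := eg_ext B hk (fun w => -w.1) (-1, 0) (fun w => (eg_nn w).2.1)
      (fun w => by simp)
    refine ⟨w, hw, hc, ?_⟩
    have := hm v hv
    have h4 : s ≤ (k.1 - w.1).natAbs := by omega
    exact h4.trans (le_max_left _ _)
  · obtain ⟨w, hw, hc, hm⟩ := eg_ext B hk (fun w => w.2) (0, 1) (fun w => (eg_nn w).2.2.1)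
      (fun w => by simp)
    refine ⟨w, hw, hc, ?_⟩
    have := hm v hv
    have h4 : s ≤ (k.2 - w.2).natAbs := by omega
    exact h4.trans (le_max_right _ _)
  · obtain ⟨w, hw, hc, hm⟩ := eg_ext B hk (fun w => -w.2) (0, -1) (fun w => (eg_nn w).2.2.2)
      (fun w => by simp)
    refine ⟨w, hw, hc, ?_⟩
    have := hm v hv
    have h4 : s ≤ (k.2 - w.2).natAbs := by omega
    exact h4.trans (le_max_right _ _)

theorem eg_join (B : Finset (ℤ × ℤ)) {k u w : ℤ × ℤ} (hk : k ∉ Ext (B : Set (ℤ × ℤ)))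
    (hu : u ∈ sco (Ext (B : Set (ℤ × ℤ)))ᶜ k) (hu' : ∃ c ∈ Ext (B : Set (ℤ × ℤ)), nn u c)
    (hw : w ∈ sco (Ext (B : Set (ℤ × ℤ)))ᶜ k) (hw' : ∃ c ∈ Ext (B : Set (ℤ × ℤ)), nn w c) :
    ∃ (N : ℕ) (γ : ℕ → ℤ × ℤ), di u w ≤ N ∧ SPath N γ ∧ γ 0 = u ∧ ∀ j ≤ N, γ j ∈ B := by
  have h1 := inner_conn (sco_sep B hk) hu hu' hw hw'
  obtain ⟨N, γ, hγ, h0, hN, hQ⟩ := spath_of (Q := {w | w ∈ sco (Ext (B : Set (ℤ × ℤ)))ᶜ k ∧
    ∃ c ∈ Ext (B : Set (ℤ × ℤ)), nn w c}) ⟨hu, hu'⟩ h1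
  refine ⟨N, γ, ?_, hγ, h0, ?_⟩
  · rw [← h0, ← hN]
    exact spath_len hγ
  · intro j hj
    have := hQ j hj
    exact eg_inB B hk this.1 this.2

/-- large detours come from long `*`-paths in `B` -/
theorem rad_path (B : Finset (ℤ × ℤ)) (k : ℤ × ℤ) (s : ℕ) (hs : 1 ≤ s)
    (h : s + 1 ≤ rad (B : Set (ℤ × ℤ)) k) :
    ∃ (i N : ℕ) (γ : ℕ → ℤ × ℤ), max i s ≤ 2 * (N + 1) ∧ SPath N γ ∧ γ 0 = k + ((i : ℤ), 0) ∧
      ∀ j ≤ N, γ j ∈ B := by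
  have hk := eg_not B (by omega : 1 ≤ rad (B : Set (ℤ × ℤ)) k)
  obtain ⟨i, hu, hu'⟩ := eg_ray B hk
  have hdi : di k (k + ((i : ℤ), 0)) = i := by
    unfold di
    simp
  by_cases hi : s ≤ 2 * i
  · obtain ⟨w, hw, hw', hm⟩ := eg_ext B hk (fun w => -w.1) (-1, 0) (fun w => (eg_nn w).2.1)
      (fun w => by simp)
    obtain ⟨N, γ, hd, hγ, h0, hB⟩ := eg_join B hk hu hu' hw hw'
    refine ⟨i, N, γ, ?_, hγ, h0, hB⟩
    have h1 := hm k Relation.ReflTransGen.refl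
    have h2 : i ≤ di (k + ((i : ℤ), 0)) w := by
      have h3 : i ≤ ((k + ((i : ℤ), 0)).1 - w.1).natAbs := by
        simp only [Prod.fst_add]
        omega
      exact h3.trans (le_max_left _ _)
    omega
  · obtain ⟨w, hw, hw', hm⟩ := eg_far B hk s h
    obtain ⟨N, γ, hd, hγ, h0, hB⟩ := eg_join B hk hu hu' hw hw'
    refine ⟨i, N, γ, ?_, hγ, h0, hB⟩
    have h1 := di_tri k (k + ((i : ℤ), 0)) w
    rw [hdi] at h1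
    omega

theorem rad_zero (B : Finset (ℤ × ℤ)) (k : ℤ × ℤ)
    (h : 1 ≤ rad (B : Set (ℤ × ℤ)) k) : ∃ i : ℕ, k + ((i : ℤ), 0) ∈ B := by
  have hk := eg_not B h
  obtain ⟨i, hu, hu'⟩ := eg_ray B hk
  exact ⟨i, eg_inB B hk hu hu'⟩

end HK
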