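import Mathlib
import Pool.Agent.Lib_helper80.HK.DefsP
import Pool.Agent.Lib_helper80.HK.W.ea
import Pool.Agent.Lib_helper80.HK.W.ec

set_option autoImplicit false

namespace HK

open Relation

theorem eh_mono {r p : ℤ × ℤ → ℤ × ℤ → Prop} (h : ∀ a b, r a b → p a b) {x y : ℤ × ℤ}
    (hxy : ReflTransGen r x y) : ReflTransGen p x y := by
  induction hxy with
  | refl => exact ReflTransGen.refl
  | tail _ h2 ih => exact ih.tail (h _ _ h2)

theorem eh_not {B : Set (ℤ × ℤ)} {z : ℤ × ℤ} {ρ : ℕ} (hz : ¬ Cl B z ρ z) {o : ℤ × ℤ}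
    (ho : o ∈ Oc B z ρ) : ¬ Cl B z ρ o := by
  have ho' : ReflTransGen (st {x | ¬ Cl B z ρ x}) z o := ho
  induction ho' with
  | refl => exact hz
  | tail _ h _ => exact h.2.2

theorem eh_sym {Q : Set (ℤ × ℤ)} {x y : ℤ × ℤ} (h : ReflTransGen (sn Q) x y) :
    ReflTransGen (sn Q) y x := by
  induction h with
  | refl => exact ReflTransGen.refl
  | tail _ h ih => exact ReflTransGen.head ⟨nn_symm h.1, h.2.2, h.2.1⟩ ih

theorem eh_sym' {Q : Set (ℤ × ℤ)} {x y : ℤ × ℤ} (h : ReflTransGen (st Q) x y) :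
    ReflTransGen (st Q) y x := by
  induction h with
  | refl => exact ReflTransGen.refl
  | tail _ h ih => exact ReflTransGen.head ⟨by rw [di_comm]; exact h.1, h.2.2, h.2.1⟩ ih

theorem eh_star {B : Set (ℤ × ℤ)} {z : ℤ × ℤ} {ρ : ℕ} {x : ℤ × ℤ} (hx : x ∈ Oc B z ρ) :
    ReflTransGen (st (Oc B z ρ)) z x := by
  have hx' : ReflTransGen (st {x | ¬ Cl B z ρ x}) z x := hx
  induction hx' with
  | refl => exact ReflTransGen.refl
  | tail h1 h2 ih => exact (ih h1).tail ⟨h2.1, h1, ReflTransGen.tail h1 h2⟩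

theorem eh_abs {a b : ℤ} (h : (a - b).natAbs ≤ 1) (hne : ¬ a = b) : |b - a| = 1 := by
  rcases abs_cases (b - a) with ⟨h1, _⟩ | ⟨h1, _⟩ <;> omega

theorem eh_out {B : Set (ℤ × ℤ)} {z : ℤ × ℤ} {ρ : ℕ} {x : ℤ × ℤ} (hx : Cl B z ρ x) :
    ∃ v, ρ ≤ di z v ∧ ReflTransGen (sn {x | Cl B z ρ x}) x v := by
  induction hx with
  | base h => exact ⟨_, h, ReflTransGen.refl⟩
  | @step x y hx hxB hxy ih =>
    obtain ⟨v, hv, hxv⟩ := ih
    refine ⟨v, hv, ?_⟩
    have hy : Cl B z ρ y := Cl.step hx hxB hxy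
    have key : ReflTransGen (sn {x | Cl B z ρ x}) y x := by
      unfold di at hxy
      have h1 : (x.1 - y.1).natAbs ≤ 1 := (le_max_left _ _).trans hxy
      have h2 : (x.2 - y.2).natAbs ≤ 1 := (le_max_right _ _).trans hxy
      by_cases e1 : x.1 = y.1
      · by_cases e2 : x.2 = y.2
        · have : x = y := Prod.ext e1 e2
          rw [this]
        · refine ReflTransGen.single ⟨?_, hy, hx⟩
          unfold nn
          rw [e1, sub_self, abs_zero, zero_add]
          exact eh_abs h2 e2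
      · by_cases e2 : x.2 = y.2
        · refine ReflTransGen.single ⟨?_, hy, hx⟩
          unfold nn
          rw [e2, sub_self, abs_zero, add_zero]
          exact eh_abs h1 e1
        · have hw : Cl B z ρ (x.1, y.2) := by
            refine Cl.step hx hxB ?_
            unfold di
            simp only [sub_self, Int.natAbs_zero]
            omega
          refine ReflTransGen.head (b := (x.1, y.2)) ⟨?_, hy, hw⟩
            (ReflTransGen.single ⟨?_, hw, hx⟩)
          · unfold nn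
            simp only [sub_self, abs_zero, add_zero]
            exact eh_abs h1 e1
          · unfold nn
            simp only [sub_self, abs_zero, zero_add]
            exact eh_abs h2 e2
    exact key.trans hxv

theorem eh_sep {B : Set (ℤ × ℤ)} {z : ℤ × ℤ} {ρ : ℕ} (hz : ¬ Cl B z ρ z) :
    Sep (Oc B z ρ) {x | Cl B z ρ x} where
  star := fun x hx y hy => (eh_sym' (eh_star hx)).trans (eh_star hy)
  conn := by
    intro x hx y hy
    obtain ⟨v, hv, hxv⟩ := eh_out hx
    obtain ⟨w, hw, hyw⟩ := eh_out hy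
    have h1 : ReflTransGen (sn {x | Cl B z ρ x}) v w :=
      eh_mono (fun a b h => ⟨h.1, Cl.base h.2.1, Cl.base h.2.2⟩) (out_conn hv hw)
    exact hxv.trans (h1.trans (eh_sym hyw))
  disj := fun x hx => eh_not hz hx
  bd := by
    intro x hx y hxy hy
    by_contra hcon
    exact hy (ReflTransGen.tail hx ⟨hxy, eh_not hz hx, hcon⟩)

theorem gam_good {B : Set (ℤ × ℤ)} {z : ℤ × ℤ} {ρ : ℕ} (hz : ¬ Cl B z ρ z) {y : ℤ × ℤ}
    (hy : y ∈ Gam B z ρ) : y ∉ B ∧ di z y ≤ ρ := by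
  obtain ⟨hy1, o, ho, hoy⟩ := hy
  have hno := eh_not hz ho
  constructor
  · intro hB
    exact hno (Cl.step hy1 hB (by rw [di_comm]; exact hoy))
  · have h1 : di z o < ρ := by
      by_contra hcon
      exact hno (Cl.base (not_lt.1 hcon))
    have h2 := di_tri z o y
    omega

theorem gam_ne {B : Set (ℤ × ℤ)} {z : ℤ × ℤ} {ρ : ℕ} (hz : ¬ Cl B z ρ z) :
    (Gam B z ρ).Nonempty := by
  classical
  let w : ℕ → ℤ × ℤ := fun i => (z.1 + i, z.2)
  have hex : ∃ i, Cl B z ρ (w i) := by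
    refine ⟨ρ, Cl.base ?_⟩
    unfold di
    simp only [w]
    omega
  have h0 : w 0 = z := by simp [w]
  have hstep : ∀ i, di (w i) (w (i + 1)) ≤ 1 := by
    intro i
    unfold di
    simp only [w]
    push_cast
    omega
  obtain ⟨i, hi⟩ : ∃ i, Nat.find hex = i + 1 := by
    refine Nat.exists_eq_succ_of_ne_zero ?_
    intro h
    have := Nat.find_spec hex
    rw [h, h0] at this
    exact hz this
  have hlt : ∀ j ≤ i, ¬ Cl B z ρ (w j) := fun j hj => Nat.find_min hex (by omega)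
  have hoc : ∀ j ≤ i, w j ∈ Oc B z ρ := by
    intro j
    induction j with
    | zero => intro _; rw [h0]; exact ReflTransGen.refl
    | succ j ih =>
      intro hj
      exact ReflTransGen.tail (ih (by omega)) ⟨hstep j, hlt j (by omega), hlt (j + 1) hj⟩
  refine ⟨w (i + 1), ?_, w i, hoc i le_rfl, hstep i⟩
  rw [← hi]
  exact Nat.find_spec hex

theorem gam_conn {B : Set (ℤ × ℤ)} {z : ℤ × ℤ} {ρ : ℕ} (hz : ¬ Cl B z ρ z) {y y' : ℤ × ℤ}
    (hy : y ∈ Gam B z ρ) (hy' : y' ∈ Gam B z ρ) :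
    ∃ (N : ℕ) (γ : ℕ → ℤ × ℤ), NPath N γ ∧ γ 0 = y ∧ γ N = y' ∧ ∀ j ≤ N, γ j ∈ Gam B z ρ := by
  have h := outer_conn (eh_sep hz) (x := y) (y := y') hy.1 hy.2 hy'.1 hy'.2
  exact npath_of (Q := Gam B z ρ) hy h

theorem oc_ball {B : Set (ℤ × ℤ)} {z : ℤ × ℤ} {ρ r : ℕ} (h : ∀ x, Cl B z ρ x → r < di z x)
    {k : ℤ × ℤ} (hk : di z k ≤ r) : k ∈ Oc B z ρ := by
  have h1 := ball_conn hk
  refine eh_mono (fun a b hab => ?_) h1
  have ha : di z a ≤ r := hab.2.1
  have hb : di z b ≤ r := hab.2.2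
  refine ⟨(di_nn hab.1).le, fun hc => ?_, fun hc => ?_⟩
  · exact absurd (h a hc) (by omega)
  · exact absurd (h b hc) (by omega)

end HK
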