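import Mathlib
import Pool.Agent.Lib_helper80.HK.DefsP
import Pool.Agent.Lib_helper80.HK.W.ea

set_option autoImplicit false

namespace HK

/-- a vertex of the closure is outside the ball or joined to the sphere inside `B` -/
theorem ej_main {B : Set (ℤ × ℤ)} {z : ℤ × ℤ} {ρ : ℕ} {x : ℤ × ℤ} (h : Cl B z ρ x) :
    ρ ≤ di z x ∨ ∃ y ∈ B, di y x ≤ 1 ∧ ∃ w ∈ B, di z w = ρ ∧
      Relation.ReflTransGen (st B) w y := by
  induction h with
  | base h => exact Or.inl h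
  | @step x y _ hx hxy ih =>
    rcases ih with h1 | ⟨y0, hy0, hy0x, w, hw, hzw, hch⟩
    · by_cases h2 : ρ ≤ di z y
      · exact Or.inl h2
      · right
        have h3 := di_tri z y x
        have h4 := di_comm x y
        exact ⟨x, hx, hxy, x, hx, by omega, Relation.ReflTransGen.refl⟩
    · exact Or.inr ⟨x, hx, hxy, w, hw, hzw, hch.tail ⟨hy0x, hy0, hx⟩⟩

theorem ej_symm (B : Set (ℤ × ℤ)) : Std.Symm (st B) :=
  ⟨fun x y h => ⟨by rw [di_comm]; exact h.1, h.2.2, h.2.1⟩⟩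

/-- long `*`-paths from outside -/
theorem cl_path {B : Set (ℤ × ℤ)} {z : ℤ × ℤ} {ρ : ℕ} {x : ℤ × ℤ} (h : Cl B z ρ x) {s : ℕ}
    (hs : di z x + (s + 1) ≤ ρ) :
    ∃ γ : ℕ → ℤ × ℤ, SPath s γ ∧ di z (γ 0) = ρ ∧ ∀ j ≤ s, γ j ∈ B := by
  rcases ej_main h with h1 | ⟨y, hy, hyx, w, hw, hzw, hch⟩
  · omega
  · obtain ⟨N, γ, hγ, h0, hN, hB⟩ := spath_of hw hch
    have hl := spath_len hγ
    rw [h0, hN] at hl
    have h2 := di_tri z x y
    have h3 := di_comm x y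
    have h4 := di_tri z y w
    have h5 := di_comm w y
    have hsN : s ≤ N := by omega
    exact ⟨γ, spath_take hγ hsN, by rw [h0, hzw], fun j hj => hB j (le_trans hj hsN)⟩

/-- long `*`-paths from inside -/
theorem cl_path' {B : Set (ℤ × ℤ)} {z : ℤ × ℤ} {ρ : ℕ} {x : ℤ × ℤ} (h : Cl B z ρ x) {s : ℕ}
    (hs : di z x + (s + 1) ≤ ρ) :
    ∃ γ : ℕ → ℤ × ℤ, SPath s γ ∧ di x (γ 0) ≤ 1 ∧ ∀ j ≤ s, γ j ∈ B := by
  rcases ej_main h with h1 | ⟨y, hy, hyx, w, hw, hzw, hch⟩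
  · omega
  · have hch' : Relation.ReflTransGen (st B) y w := by
      have := ej_symm B
      exact Std.Symm.symm _ _ hch
    obtain ⟨N, γ, hγ, h0, hN, hB⟩ := spath_of hy hch'
    have hl := spath_len hγ
    rw [h0, hN] at hl
    have h2 := di_tri z x y
    have h3 := di_comm x y
    have h4 := di_tri z y w
    have hsN : s ≤ N := by omega
    exact ⟨γ, spath_take hγ hsN, by rw [h0]; omega, fun j hj => hB j (le_trans hj hsN)⟩

end HK
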